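import Pool.Agent.helper83.FI.SpecR

/-!
# Row fib:BRK: polynomials and the Brauer homomorphism
-/

set_option autoImplicit false

namespace Pool.Agent.FI

open Pool.Agent.helper58.DC Pool.Agent.DI Pool.Agent.GR Pool.Agent.OB

theorem BRK_supp {G : Type} [Group G] [Finite G] (hCVF : CVF_stmt) (H : Subgroup G) (a : G → ℂ)
    (ha : ∀ x, x ∉ H → a x = 0) (k : ℕ) : ∀ x, x ∉ H → cvp a k x = 0 := by
  obtain ⟨-, -, -, -, -, hsup, -⟩ := hCVF G
  induction k with
  | zero =>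
    intro x hx
    change dl x = 0
    have : x ≠ 1 := fun h => hx (h ▸ H.one_mem)
    simp [dl, this]
  | succ k ih =>
    intro x hx
    exact hsup H _ _ ih ha x hx

theorem BRK (hBRQ : BRQ_stmt) (hPLF : PLF_stmt) (hCVF : CVF_stmt) : BRK_stmt := by
  intro p M hS G _ _ H P hP a ha0 ha1 hinv
  classical
  obtain ⟨-, hlin, -, -, -, -, -, -, -, -, hInt, hInM⟩ := hCVF G
  obtain ⟨hadd, hcomm, hbc, hsupp, hInvp, hunit, hIntp, hidem⟩ := hPLF G a
  obtain ⟨-, -, -, -, -, -, hIntp', -⟩ := hPLF G (rsk (H ⊓ cz P) a)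
  have hra : ∀ x, IntAt M (rsk (H ⊓ cz P) a x) := by
    intro x
    unfold rsk
    split_ifs
    · exact ha1 x
    · exact IntAt.zero hS
  have h1 : ∀ (k : ℕ) (x : G), 1 ≤ k →
      InM M (rsk (H ⊓ cz P) (cvp a k) x - cvp (rsk (H ⊓ cz P) a) k x) := by
    intro k x hk
    induction k, hk using Nat.le_induction generalizing x with
    | base =>
      have e1 : cvp a 1 = a := by
        change cv dl a = a
        obtain ⟨-, -, -, hdl, -⟩ := hCVF G
        exact (hdl a).1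
      have e2 : cvp (rsk (H ⊓ cz P) a) 1 = rsk (H ⊓ cz P) a := by
        change cv dl (rsk (H ⊓ cz P) a) = rsk (H ⊓ cz P) a
        obtain ⟨-, -, -, hdl, -⟩ := hCVF G
        exact (hdl _).1
      rw [e1, e2, sub_self]
      exact InM.zero hS
    | succ k hk ih =>
      have e1 := hBRQ p M hS G H P hP (cvp a k) a (BRK_supp hCVF H a ha0 k) ha0
        (fun x => (hIntp p M hS ha1 k (fun _ => 0) (fun _ => IntAt.zero hS) x).1) ha1
        ((hInvp P hinv k (fun _ => 0)).1) hinv x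
      have e2 : InM M (cv (rsk (H ⊓ cz P) (cvp a k)) (rsk (H ⊓ cz P) a) x -
          cvp (rsk (H ⊓ cz P) a) (k + 1) x) := by
        have e3 : cv (rsk (H ⊓ cz P) (cvp a k)) (rsk (H ⊓ cz P) a) x -
          cvp (rsk (H ⊓ cz P) a) (k + 1) x =
            cv (rsk (H ⊓ cz P) (cvp a k) - cvp (rsk (H ⊓ cz P) a) k) (rsk (H ⊓ cz P) a) x := by
          rw [(hlin (rsk (H ⊓ cz P) (cvp a k)) (cvp (rsk (H ⊓ cz P) a) k) (rsk (H ⊓ cz P) a)).2.2.1]
          rfl
        rw [e3, cv]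
        exact InM.finsum hS fun y => InM.mul_right hS (ih y) (hra _)
      have e4 := InM.add hS e1 e2
      have e5 : rsk (H ⊓ cz P) (cv (cvp a k) a) x -
          cv (rsk (H ⊓ cz P) (cvp a k)) (rsk (H ⊓ cz P) a) x +
          (cv (rsk (H ⊓ cz P) (cvp a k)) (rsk (H ⊓ cz P) a) x -
          cvp (rsk (H ⊓ cz P) a) (k + 1) x) =
          rsk (H ⊓ cz P) (cvp a (k + 1)) x - cvp (rsk (H ⊓ cz P) a) (k + 1) x := by
        change rsk (H ⊓ cz P) (cv (cvp a k) a) x - _ + _ = rsk (H ⊓ cz P) (cv (cvp a k) a) x - _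
        ring
      rw [e5] at e4
      exact e4
  refine ⟨h1, ?_⟩
  intro n c hc x
  have e : rsk (H ⊓ cz P) (plv n c a) x - plv n c (rsk (H ⊓ cz P) a) x =
      ∑ k ∈ Finset.range n, c k * (rsk (H ⊓ cz P) (cvp a (k + 1)) x - cvp (rsk (H ⊓ cz P) a) (k + 1) x) := by
    have e1 : rsk (H ⊓ cz P) (plv n c a) x = ∑ k ∈ Finset.range n, c k * rsk (H ⊓ cz P) (cvp a (k + 1)) x := by
      unfold rsk
      split_ifs with h
      · unfold plv
        rw [Finset.sum_apply]
        rfl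
      · simp
    have e2 : plv n c (rsk (H ⊓ cz P) a) x = ∑ k ∈ Finset.range n, c k * cvp (rsk (H ⊓ cz P) a) (k + 1) x := by
      unfold plv
      rw [Finset.sum_apply]
      rfl
    rw [e1, e2, ← Finset.sum_sub_distrib]
    refine Finset.sum_congr rfl fun k _ => ?_
    ring
  rw [e]
  exact InM.sum hS _ fun k _ => InM.mul_left hS (hc k) (h1 (k + 1) x (by omega))

end Pool.Agent.FI
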