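import Pool.Agent.helper70.FI.SpecQ1

/-!
# Row fib:QMG: the matrix EE on the conjugates of a good block
-/

set_option autoImplicit false

namespace Pool.Agent.FI

open Pool.Agent.helper58.DC Pool.Agent.DI Pool.Agent.GR Pool.Agent.OB

theorem QMG (hFEQ : FEQ_stmt) (hQCJ : QCJ_stmt) (hQEI : QEI_stmt) (hHTN : HTN_stmt) : QMG_stmt := by
  intro p M hS G _ _ D L θ l hl u hu hgood η hη hθη η' hη'
  have hLL : cjS l L = L := by
    ext x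
    rw [mem_cjS]
    constructor
    · intro h
      have h1 := L.mul_mem (L.mul_mem hl h) (L.inv_mem hl)
      have h2 : l * (l⁻¹ * x * l) * l⁻¹ = x := by group
      rwa [h2] at h1
    · intro h
      exact L.mul_mem (L.mul_mem (L.inv_mem hl) h) hl
  have hK : cjS l (Cz L u) = Cz L (l * u * l⁻¹) := by
    obtain ⟨-, -, h3, -⟩ := hFEQ G M l 1 L L L η η η
    rw [h3 u, hLL]
  have hback : ∀ ψ : G → ℂ, cjF l (cjF l⁻¹ ψ) = ψ := by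
    intro ψ
    obtain ⟨⟨-, h2, -, -⟩, -⟩ := hFEQ G M l l⁻¹ L L L η ψ η
    obtain ⟨⟨-, -, -, h4⟩, -⟩ := hFEQ G M l l⁻¹ L L L η ψ η
    rw [h2, mul_inv_cancel, h4]
  have hirr : ∀ ψ : G → ℂ, ψ ∈ IrrOn (Cz L (l * u * l⁻¹)) → cjF l⁻¹ ψ ∈ IrrOn (Cz L u) := by
    intro ψ hψ
    obtain ⟨-, -, -, h4, -⟩ := hFEQ G M l 1 L L (Cz L u) η (cjF l⁻¹ ψ) η
    rw [h4, hback, hK]
    exact hψ
  have hsb : ∀ ψ : G → ℂ, SB M (Cz L (l * u * l⁻¹)) (cjF l θ) ψ → SB M (Cz L u) θ (cjF l⁻¹ ψ) := by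
    intro ψ hψ
    obtain ⟨-, -, -, -, h5, -⟩ := hFEQ G M l 1 L L (Cz L u) θ (cjF l⁻¹ ψ) η
    rw [h5, hback, hK]
    exact hψ
  split_ifs with hcase
  · have h1 : cjF l⁻¹ η ∈ Bl M (Cz L u) θ := ⟨hirr η hη, (hsb η hθη).symm⟩
    have h2 : cjF l⁻¹ η' ∈ Bl M (Cz L u) θ := ⟨hirr η' hη', (hsb η' (hθη.trans hcase)).symm⟩
    have h3 := hHTN p M hS G D (Cz L u) θ hgood _ h1 _ h2
    have h4 := (hQCJ G l (Cz L u)).1 p (cjF l⁻¹ η) (cjF l⁻¹ η')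
    rw [hback, hback, hK] at h4
    rw [h4, EE]
    have hD : (Nat.card D : ℂ) ≠ 0 := by exact_mod_cast Nat.card_pos.ne'
    have hC : (Nat.card (Cz L u) : ℂ) ≠ 0 := by exact_mod_cast Nat.card_pos.ne'
    rw [div_eq_div_iff hC hD, one_mul, mul_comm]
    exact h3
  · have hBC := (Q1_BC M (Cz L (l * u * l⁻¹)) 1 η).1
    obtain ⟨-, h2, -⟩ := hQEI p M hS G (Cz L (l * u * l⁻¹)) _ hBC
    refine (h2 η ⟨hη, SB.refl _ _⟩ η' hη' ?_).1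
    intro h
    exact hcase h.2.symm

end Pool.Agent.FI
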