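import Pool.Agent.helper83.FI.SpecR

/-!
# Row fib:BRQ: Brauer homomorphism for a p-subgroup
-/

set_option autoImplicit false

namespace Pool.Agent.FI

open Pool.Agent.helper58.DC Pool.Agent.DI Pool.Agent.GR Pool.Agent.OB

open Classical in
theorem BRQ_orbit {p : ℕ} {M : Ideal (integralClosure ℤ ℂ)} (hS : Setup p M) {X G : Type} [Fintype X]
    [Group G] [MulAction G X] (hG : IsPGroup p G) [Finite G] (F : X → ℂ)
    (hF : ∀ (g : G) x, F (g • x) = F x) (hi : ∀ x, IntAt M (F x)) :
    InM M (∑ x, F x - ∑ x ∈ Finset.univ.filter (fun x => x ∈ MulAction.fixedPoints G X), F x) := by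
  have hpf : Fact p.Prime := ⟨hS.pr⟩
  have key : ∀ q : MulAction.orbitRel.Quotient G X,
      InM M (∑ x ∈ (Finset.univ.filter (fun x : X => x ∉ MulAction.fixedPoints G X)).filter
        (fun x => (Quotient.mk (MulAction.orbitRel G X) x : MulAction.orbitRel.Quotient G X) = q),
        F x) := by
    intro q
    induction q using Quotient.inductionOn with
    | h x0 =>
    by_cases hx : x0 ∈ MulAction.fixedPoints G X
    · have h0 : ∑ x ∈ (Finset.univ.filter (fun x : X => x ∉ MulAction.fixedPoints G X)).filter
        (fun x => (Quotient.mk (MulAction.orbitRel G X) x : MulAction.orbitRel.Quotient G X) =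
          Quotient.mk (MulAction.orbitRel G X) x0), F x = 0 := by
        apply Finset.sum_eq_zero
        intro x hx'
        rw [Finset.mem_filter, Finset.mem_filter] at hx'
        obtain ⟨⟨_, h1⟩, h2⟩ := hx'
        have h3 : x ∈ MulAction.orbit G x0 := Quotient.exact h2
        obtain ⟨g, hg⟩ := h3
        exfalso
        apply h1
        have : x = x0 := by
          rw [← hg]; exact hx g
        rw [this]; exact hx
      rw [h0]
      exact InM.zero hS
    · have hset : (Finset.univ.filter (fun x : X => x ∉ MulAction.fixedPoints G X)).filter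
        (fun x => (Quotient.mk (MulAction.orbitRel G X) x : MulAction.orbitRel.Quotient G X) =
          Quotient.mk (MulAction.orbitRel G X) x0)
          = (Set.toFinite (MulAction.orbit G x0)).toFinset := by
        ext x
        rw [Finset.mem_filter, Finset.mem_filter, Set.Finite.mem_toFinset]
        constructor
        · rintro ⟨_, h2⟩
          exact Quotient.exact h2
        · intro h
          refine ⟨⟨Finset.mem_univ _, ?_⟩, Quotient.sound h⟩
          intro hfix
          apply hx
          obtain ⟨g, hg⟩ := h
          have h4 : x0 = g⁻¹ • x := by rw [← hg]; simp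
          rw [h4, hfix g⁻¹]
          exact hfix
      have hcard : ∃ n, Nat.card (MulAction.orbit G x0) = p ^ n := hG.card_orbit x0
      obtain ⟨n, hn⟩ := hcard
      have hn0 : n ≠ 0 := by
        rintro rfl
        apply hx
        rw [pow_zero, Nat.card_eq_one_iff_unique] at hn
        obtain ⟨hs, _⟩ := hn
        intro g
        have := @Subsingleton.elim _ hs ⟨g • x0, MulAction.mem_orbit x0 g⟩
          ⟨x0, MulAction.mem_orbit_self x0⟩
        exact congrArg Subtype.val this
      obtain ⟨m, rfl⟩ := Nat.exists_eq_succ_of_ne_zero hn0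
      have hval : ∑ x ∈ (Set.toFinite (MulAction.orbit G x0)).toFinset, F x =
          (p : ℂ) * ((p : ℂ) ^ m * F x0) := by
        rw [Finset.sum_congr rfl (g := fun _ => F x0)]
        · rw [Finset.sum_const, nsmul_eq_mul]
          have : (Set.toFinite (MulAction.orbit G x0)).toFinset.card = p ^ (m + 1) := by
            rw [← hn, Nat.card_eq_card_finite_toFinset]
          rw [this]
          push_cast
          ring
        · intro x hx'
          rw [Set.Finite.mem_toFinset] at hx'
          obtain ⟨g, hg⟩ := hx'
          rw [← hg]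
          exact hF g x0
      rw [hset, hval]
      exact InM.mul_right hS (InM.prime_mem hS) (((IntAt.natCast hS p).pow hS m).mul hS (hi x0))
  have : Finite (MulAction.orbitRel.Quotient G X) := Quotient.finite _
  let _ : Fintype (MulAction.orbitRel.Quotient G X) := Fintype.ofFinite _
  rw [← Finset.sum_filter_add_sum_filter_not Finset.univ
    (fun x => x ∈ MulAction.fixedPoints G X) F, add_sub_cancel_left]
  rw [← Finset.sum_fiberwise (Finset.univ.filter (fun x : X => x ∉ MulAction.fixedPoints G X))
    (fun x => (Quotient.mk (MulAction.orbitRel G X) x : MulAction.orbitRel.Quotient G X)) F]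
  exact InM.sum hS _ fun q _ => key q

open Classical in
theorem BRQ (hORB : ORB_stmt) : BRQ_stmt := by
  intro p M hS G _ _ H P hP z w hz0 hw0 hz1 hw1 hz hw c
  by_cases hc : c ∈ H ⊓ cz P
  · let _ : Fintype G := Fintype.ofFinite G
    let _ : MulAction P G := MulAction.compHom G ((MulAut.conj : G →* MulAut G).comp P.subtype)
    have hact : ∀ (u : P) (x : G), u • x = (u : G) * x * (u : G)⁻¹ := fun u x => rfl
    have hcu : ∀ u : P, (u : G) * c = c * (u : G) := by
      intro u
      exact (Subgroup.mem_centralizer_iff.1 hc.2 (u : G) u.2)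
    have hsum := BRQ_orbit hS hP (fun x : G => z x * w (x⁻¹ * c))
      (by
        intro u x
        simp only [hact]
        rw [hz u u.2 x]
        congr 1
        have : ((u : G) * x * (u : G)⁻¹)⁻¹ * c = (u : G) * (x⁻¹ * c) * (u : G)⁻¹ := by
          have h := hcu u
          have h2 : (u : G)⁻¹ * c = c * (u : G)⁻¹ := by
            rw [inv_mul_eq_iff_eq_mul, ← mul_assoc, h, mul_assoc, mul_inv_cancel, mul_one]
          simp only [mul_inv_rev, inv_inv, mul_assoc]
          rw [h2]
        rw [this, hw u u.2])
      (fun x => (hz1 _).mul hS (hw1 _))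
    have h1 : rsk (H ⊓ cz P) (cv z w) c = ∑ x, z x * w (x⁻¹ * c) := by
      rw [rsk, if_pos hc, cv, finsum_eq_sum_of_fintype]
    have h2 : cv (rsk (H ⊓ cz P) z) (rsk (H ⊓ cz P) w) c
        = ∑ x ∈ Finset.univ.filter (fun x => x ∈ MulAction.fixedPoints P G), z x * w (x⁻¹ * c) := by
      rw [cv, finsum_eq_sum_of_fintype, Finset.sum_filter]
      apply Finset.sum_congr rfl
      intro x _
      have hfix : x ∈ MulAction.fixedPoints P G ↔ x ∈ cz P := by
        rw [Subgroup.mem_centralizer_iff]
        constructor
        · intro h u hu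
          have := h ⟨u, hu⟩
          rw [hact] at this
          simp only at this
          rw [mul_inv_eq_iff_eq_mul] at this
          exact this
        · intro h u
          rw [hact, mul_inv_eq_iff_eq_mul]
          exact h u u.2
      by_cases hx : x ∈ cz P
      · rw [if_pos (hfix.2 hx)]
        by_cases hxH : x ∈ H
        · have hxK : x ∈ H ⊓ cz P := ⟨hxH, hx⟩
          rw [rsk, rsk, if_pos hxK, if_pos ((H ⊓ cz P).mul_mem ((H ⊓ cz P).inv_mem hxK) hc)]
        · rw [rsk, if_neg (fun h => hxH h.1), hz0 x hxH, zero_mul, zero_mul]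
      · rw [if_neg (fun h => hx (hfix.1 h)), rsk, if_neg (fun h => hx h.2), zero_mul]
    rw [h1, h2]
    exact hsum
  · have h1 : rsk (H ⊓ cz P) (cv z w) c = 0 := by rw [rsk, if_neg hc]
    have h2 : cv (rsk (H ⊓ cz P) z) (rsk (H ⊓ cz P) w) c = 0 := by
      rw [cv]
      refine (finsum_congr fun x => ?_).trans finsum_zero
      by_cases hx : x ∈ H ⊓ cz P
      · have hx2 : x⁻¹ * c ∉ H ⊓ cz P := by
          intro h
          apply hc
          have := (H ⊓ cz P).mul_mem hx h
          rwa [mul_inv_cancel_left] at this
        have h3 : rsk (H ⊓ cz P) w (x⁻¹ * c) = 0 := by rw [rsk, if_neg hx2]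
        rw [h3, mul_zero]
      · have h3 : rsk (H ⊓ cz P) z x = 0 := by rw [rsk, if_neg hx]
        rw [h3, zero_mul]
    rw [h1, h2, sub_zero]
    exact InM.zero hS

end Pool.Agent.FI
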